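import Pool.Agent.H37.SP.Stm

set_option autoImplicit false

namespace H91.SP

open Finset Pool.Agent.H37.SP

theorem t_PHI : S_PHI := by
  intro d hd
  have hφ : 0 < Nat.totient d := Nat.totient_pos.2 hd
  have h1 : d ≤ d.divisors.card * Nat.totient d := by
    calc d = ∑ e ∈ d.divisors, Nat.totient e := (Nat.sum_totient d).symm
      _ ≤ ∑ _e ∈ d.divisors, Nat.totient d := by
          refine Finset.sum_le_sum fun e he => ?_
          exact Nat.le_of_dvd hφ (Nat.totient_dvd_of_dvd (Nat.dvd_of_mem_divisors he))
      _ = d.divisors.card * Nat.totient d := by rw [Finset.sum_const, smul_eq_mul]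
  have h2 : (0 : ℝ) < Nat.totient d := by exact_mod_cast hφ
  have h3 : (0 : ℝ) < d := by exact_mod_cast hd
  rw [div_le_div_iff₀ h2 h3, one_mul]
  exact_mod_cast h1

theorem t_MUL : S_MUL := by
  intro s t A hA
  calc ((Box s t).filter (fun a => prd a = A)).card
      ≤ (Fintype.piFinset (fun _ : Fin s => A.divisors)).card := by
        refine Finset.card_le_card fun a ha => ?_
        rw [Finset.mem_filter] at ha
        rw [Fintype.mem_piFinset]
        intro i
        rw [Nat.mem_divisors]
        refine ⟨?_, by omega⟩
        rw [← ha.2]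
        exact Finset.dvd_prod_of_mem a (Finset.mem_univ i)
    _ = A.divisors.card ^ s := by
        rw [Fintype.card_piFinset]
        simp

end H91.SP
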